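import Pool.Agent.Helper48.EX.AP3

/-!
# MP_2857a5_co : module AP, assembly in the case of trees consisting mainly of directed paths
-/

set_option autoImplicit false

open Finset
open scoped Classical

namespace OT

noncomputable section

/-- From the final state to the data of the embedding lemma. -/
theorem ap_finish {n : ℕ} (Δ : ℕ) (T : PTree n) (hT : T.Deg Δ) {V : Type} [Fintype V]
    (hV : Fintype.card V = n) (D : V → V → Prop) (τ ω : Bool) (K : ℕ) (η γ κ : ℝ)
    (pos : Fin n → Bool) (Tl : Finset (Fin n)) (hd : Fin n → Fin n) (A : Finset (Fin n))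
    (seg : Fin n → ℕ → Fin n) (hTree : TreeP T τ K η pos Tl hd A seg) (B C : Finset V)
    (o i : V → Bool) (S S' : Finset V) (lv lv' : V → Fin (Δ + 1) → V) (k : ℕ)
    (hHost : HostP D Δ B C o i τ ω S S' lv lv' γ κ k) (S1 S2 S3 H : Finset V)
    (hS1 : S1 ⊆ S) (hS2 : S2 ⊆ S) (hS3 : S3 ⊆ S') (hd1 : Disjoint H S1)
    (hH : ∀ v, v ∉ S1 → (v ∈ H ↔ (v ∉ B ∧ v ∉ C) ∨ v ∈ S2 ∨ v ∈ S3)) (α β : V → Bool)
    (hα : ∀ v, v ∉ S3 → α v = i v) (hβ : ∀ v, v ∉ S2 → β v = !(o v)) (c : ℕ)
    (pl : V → Fin n) (Fl U : Finset (Fin n))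
    (st : ApSt T pos Tl A seg α β c S1 (S1 ∪ H) pl Fl U)
    (hcount : 2 * (B \ (S1 ∪ H)).card + ∑ h ∈ H, apCost α β h = c) :
    ∃ (Sp : Finset (Fin n)) (ψ : Fin n → V) (lab : Fin n → Bool) (Lf : Finset (Fin n))
      (lam : Fin n → V), Sp.card ≤ S1.card + H.card ∧
      MetData D T (fun b : Bool => if b = true then B else C) (fun a b => a ≠ b) γ Sp ψ lab
        Lf lam := by
  set Im := S1 ∪ H with hIm
  have eV : V ≃ Fin n := Fintype.equivFinOfCardEq hV
  have hplinj : ∀ h ∈ Im, ∀ h' ∈ Im, pl h = pl h' → h = h' := by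
    intro h hh h' hh' he
    by_contra hne
    refine st.sep h hh h' hh' hne ?_
    rw [he]
    exact T.self_mem_ball 3 _
  obtain ⟨ψ, hψ⟩ : ∃ ψ : Fin n → V, ∀ h ∈ Im, ψ (pl h) = h := by
    refine ⟨fun x => if hx : ∃ h, h ∈ Im ∧ pl h = x then hx.choose else eV.symm x, ?_⟩
    intro h hh
    have hx : ∃ h', h' ∈ Im ∧ pl h' = pl h := ⟨h, hh, rfl⟩
    simp only [dif_pos hx]
    exact hplinj _ hx.choose_spec.1 _ hh hx.choose_spec.2
  set Sp : Finset (Fin n) := Im.image pl with hSp
  have hSpimg : Sp.image ψ = Im := by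
    ext v
    rw [mem_image]
    constructor
    · rintro ⟨x, hx, rfl⟩
      obtain ⟨h, hh, rfl⟩ := mem_image.1 hx
      rw [hψ h hh]
      exact hh
    · intro hv
      exact ⟨pl v, mem_image_of_mem _ hv, hψ v hv⟩
  have hTlSp : Tl ⊆ Sp := by
    rw [← st.tl]
    exact image_subset_image subset_union_left
  have hHmem : ∀ v ∈ Im, v ∉ S1 → v ∈ H := by
    intro v hv h1
    rcases mem_union.1 hv with h | h
    · exact absurd h h1
    · exact h
  have hImH : Im \ S1 = H := by
    ext v
    rw [mem_sdiff]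
    constructor
    · rintro ⟨h1, h2⟩
      exact hHmem v h1 h2
    · intro h
      exact ⟨mem_union_right _ h, Finset.disjoint_left.1 hd1 h⟩
  have hFlfar : ∀ y ∈ Fl, ∀ x ∈ Tl, y ∉ T.ball 3 x := by
    intro y hy x hx
    obtain ⟨a, ha, j, hj, rfl⟩ := st.flip y hy
    exact hTree.segs.bad a (st.UA ha) j (by omega) x hx
  refine ⟨Sp, ψ, fun y => xor (pos y) (decide (y ∈ Fl)), ?_⟩
  suffices hmet : ∃ (Lf : Finset (Fin n)) (lam : Fin n → V),
      MetData D T (fun b : Bool => if b = true then B else C) (fun a b => a ≠ b) γ Sp ψ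
        (fun y => xor (pos y) (decide (y ∈ Fl))) Lf lam by
    obtain ⟨Lf, lam, h⟩ := hmet
    exact ⟨Lf, lam, card_image_le.trans (card_union_le _ _), h⟩
  refine ap_fin Δ T hT hV D B C o i S S' lv lv' γ hHost.nb.disj
    (fun u hu => (hHost.labS u hu).1) (fun u hu => (hHost.labS' u hu).1) hHost.out hHost.inn
    hHost.st hHost.st' Sp ψ (fun y => xor (pos y) (decide (y ∈ Fl))) ?_ ?_ ?_ ?_ ?_ ?_ ?_ ?_ ?_
  · -- sep
    intro x hx y hy hne
    obtain ⟨h, hh, rfl⟩ := mem_image.1 hx
    obtain ⟨h', hh', rfl⟩ := mem_image.1 hy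
    exact st.sep h hh h' hh' (fun e => hne (by rw [e]))
  · -- inj
    intro x hx y hy he
    obtain ⟨h, hh, rfl⟩ := mem_image.1 hx
    obtain ⟨h', hh', rfl⟩ := mem_image.1 hy
    rw [hψ h hh, hψ h' hh'] at he
    rw [he]
  · -- all
    intro v hb hc
    rw [hSpimg, hIm, mem_union]
    by_cases h1 : v ∈ S1
    · exact Or.inl h1
    · exact Or.inr ((hH v h1).2 (Or.inl ⟨hb, hc⟩))
  · -- B
    intro x hx hb
    obtain ⟨h, hh, rfl⟩ := mem_image.1 hx
    rw [hψ h hh] at hb ⊢
    by_cases h1 : h ∈ S1
    · exact hS1 h1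
    · rcases (hH h h1).1 (hHmem h hh h1) with h2 | h2 | h2
      · exact absurd hb h2.1
      · exact hS2 h2
      · have a1 := (hHost.labS' h (hS3 h2)).1
        have a2 := (hHost.labB h hb).2
        rw [a1] at a2
        exact Bool.noConfusion a2
  · -- C
    intro x hx hc
    obtain ⟨h, hh, rfl⟩ := mem_image.1 hx
    rw [hψ h hh] at hc ⊢
    have a2 := (hHost.labC h hc).1
    by_cases h1 : h ∈ S1
    · have a1 := (hHost.labS h (hS1 h1)).1
      rw [a1] at a2
      exact Bool.noConfusion a2
    · rcases (hH h h1).1 (hHmem h hh h1) with h2 | h2 | h2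
      · exact absurd hc h2.2
      · have a1 := (hHost.labS h (hS2 h2)).1
        rw [a1] at a2
        exact Bool.noConfusion a2
      · exact hS3 h2
  · -- arc
    intro x y hxy hx hy he
    have h1 : pos x ≠ pos y := by
      rcases hTree.arc x y hxy with h | h
      · exact h
      · exact absurd (hTlSp h.1) hx
    have h2 : x ∈ Fl ↔ y ∈ Fl :=
      ⟨st.arc x y (ap_arc_nb hxy) hx hy, st.arc y x (ap_arc_nb' hxy) hy hx⟩
    rw [decide_eq_decide.2 h2] at he
    exact h1 (Bool.xor_right_inj.1 (by rw [Bool.xor_comm, he, Bool.xor_comm]))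
  · -- out
    intro x hx y hxy
    obtain ⟨h, hh, rfl⟩ := mem_image.1 hx
    rw [hψ h hh]
    by_cases h1 : h ∈ S1
    · exact Or.inr (hS1 h1)
    · by_cases h2 : h ∈ S2
      · exact Or.inr (hS2 h2)
      · left
        rw [← hβ h h2]
        exact st.out h hh h1 y hxy
  · -- inn
    intro x hx y hxy
    obtain ⟨h, hh, rfl⟩ := mem_image.1 hx
    rw [hψ h hh]
    by_cases h1 : h ∈ S1
    · left
      have h2 : pl h ∈ Tl := by
        rw [← st.tl]
        exact mem_image_of_mem _ h1
      have h3 : y ∉ Fl := fun hy => hFlfar y hy _ h2 (ap_nb_ball (ap_arc_nb' hxy))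
      have h4 : pos y ≠ pos (pl h) := by
        rcases hTree.arc y (pl h) hxy with h | h
        · exact h
        · exfalso
          exact hTree.sep _ h2 y h.1 (ap_nb_ne (ap_arc_nb' hxy)) (ap_nb_ball (ap_arc_nb' hxy))
      rw [(hHost.labS h (hS1 h1)).2]
      rw [(hTree.tl _ h2).2.1] at h4
      simp only [decide_eq_false h3, Bool.xor_false]
      revert h4
      cases pos y <;> cases τ <;> simp
    · by_cases h2 : h ∈ S3
      · exact Or.inr (hS3 h2)
      · left
        rw [← hα h h2]
        exact st.inn h hh h1 y hxy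
  · -- count
    have h1 := st.cnt
    rw [hImH] at h1
    rw [hSpimg]
    have h2 : (univ.filter fun y => y ∉ Sp ∧ xor (pos y) (decide (y ∈ Fl)) = true).card =
        (B \ Im).card := by
      rw [← hSp] at h1
      omega
    exact h2

theorem asmP {n : ℕ} (Δ : ℕ) (T : PTree n) (hT : T.Deg Δ) {V : Type} [Fintype V]
    (hV : Fintype.card V = n) (D : V → V → Prop) (τ ω : Bool) (K : ℕ) (η γ κ : ℝ)
    (pos : Fin n → Bool) (Tl : Finset (Fin n)) (hd : Fin n → Fin n) (A : Finset (Fin n))
    (seg : Fin n → ℕ → Fin n) (hTree : TreeP T τ K η pos Tl hd A seg) (B C : Finset V)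
    (o i : V → Bool) (S S' : Finset V) (lv lv' : V → Fin (Δ + 1) → V)
    (hHost : HostP D Δ B C o i τ ω S S' lv lv' γ κ (2 * K * (Nat.log 2 n + 1)))
    (hκ : 8 * κ ≤ η) (hn : 16 * K * (Nat.log 2 n + 1) ≤ η * (n : ℝ)) :
    ∃ (Sp : Finset (Fin n)) (ψ : Fin n → V) (lab : Fin n → Bool) (Lf : Finset (Fin n))
      (lam : Fin n → V),
      (Sp.card : ℝ) ≤ 8 * κ * (n : ℝ) + 16 * K * (Nat.log 2 n + 1) ∧
      MetData D T (fun b : Bool => if b = true then B else C) (fun a b => a ≠ b) γ Sp ψ lab Lf lam := by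
  have eV : V ≃ Fin n := Fintype.equivFinOfCardEq hV
  set L : ℕ := K * (Nat.log 2 n + 1) with hL
  have hKL : K ≤ L := Nat.le_mul_of_pos_right _ (by omega)
  have hk : 2 * K * (Nat.log 2 n + 1) = 2 * L := by rw [hL]; ring
  rw [hk] at hHost
  set kc := Tl.card with hkc
  have hkcL : kc ≤ L := hTree.cardTl
  set oc := (univ.filter fun u => o u = true).card with hoc
  set ic := (univ.filter fun u => i u = true).card with hic
  set NB := (univ.filter fun v => pos v = true).card with hNB
  have hbal : |2 * (NB : ℤ) - n| ≤ K := hTree.bal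
  rw [abs_le] at hbal
  have hr0 : ic ≤ oc := hHost.r0
  have hcS : oc + 3 * (2 * L) ≤ ic + S.card := hHost.cardS
  have hcS' : oc ≤ ic + 2 * (2 * L) → 4 * (2 * L) ≤ S'.card := hHost.cardS'
  obtain ⟨τc, hτc⟩ : ∃ τc : ℕ, τc = if τ = true then kc else 0 := ⟨_, rfl⟩
  obtain ⟨τd, hτd⟩ : ∃ τd : ℕ, τd = if τ = true then 0 else kc := ⟨_, rfl⟩
  have hτcd : τc + τd = kc := by
    rw [hτc, hτd]
    split_ifs <;> omega
  obtain ⟨mp, mm, hm, hmp, hmm, hmz⟩ : ∃ mp mm : ℕ,
      (mp : ℤ) - mm = oc - ic - (2 * NB - n) - τd ∧ (mp + ic ≤ oc + L) ∧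
      (mm ≤ 2 * L) ∧ (mm = 0 ∨ (mp = 0 ∧ oc ≤ ic + 2 * L)) := by
    refine ⟨((oc : ℤ) - ic - (2 * NB - n) - τd).toNat,
      (-((oc : ℤ) - ic - (2 * NB - n) - τd)).toNat, ?_, ?_, ?_, ?_⟩ <;> omega
  -- the selected vertices
  obtain ⟨S1, hS1, hS1c⟩ : ∃ S1 ⊆ S, S1.card = kc := Finset.exists_subset_card_eq (by omega)
  have hS1S : (S \ S1).card = S.card - kc := by rw [card_sdiff_of_subset hS1, hS1c]
  obtain ⟨S2, hS2, hS2c⟩ : ∃ S2 ⊆ S \ S1, S2.card = mp :=
    Finset.exists_subset_card_eq (by omega)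
  have hS1S' : S'.card ≤ (S' \ S1).card + kc := by
    have := le_card_sdiff S1 S'
    omega
  obtain ⟨S3, hS3, hS3c⟩ : ∃ S3 ⊆ S' \ S1, S3.card = mm := by
    refine Finset.exists_subset_card_eq ?_
    rcases hmz with h | ⟨_, h⟩
    · omega
    · have := hcS' (by omega)
      omega
  have hS2S : S2 ⊆ S := hS2.trans sdiff_subset
  have hS3S : S3 ⊆ S' := hS3.trans sdiff_subset
  have hS2n : ∀ v ∈ S2, v ∉ S1 := fun v hv => (mem_sdiff.1 (hS2 hv)).2
  have hS3n : ∀ v ∈ S3, v ∉ S1 := fun v hv => (mem_sdiff.1 (hS3 hv)).2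
  have hS23 : ∀ v ∈ S2, v ∉ S3 := by
    intro v h2 h3
    have a1 : 0 < mp := by rw [← hS2c]; exact card_pos.2 ⟨v, h2⟩
    have a2 : 0 < mm := by rw [← hS3c]; exact card_pos.2 ⟨v, h3⟩
    omega
  set E : Finset V := univ \ (B ∪ C) with hE
  set H : Finset V := (E ∪ S2 ∪ S3) \ S1 with hHdef
  have hHmem : ∀ v, v ∉ S1 → (v ∈ H ↔ (v ∉ B ∧ v ∉ C) ∨ v ∈ S2 ∨ v ∈ S3) := by
    intro v hv
    simp only [hHdef, hE, mem_sdiff, mem_union, mem_univ, true_and, hv, not_false_iff,
      and_true, not_or, or_assoc]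
  have hHS1 : Disjoint H S1 := sdiff_disjoint
  set α : V → Bool := fun v => i v && !(decide (v ∈ S3)) with hα
  set β : V → Bool := fun v => !(o v) || decide (v ∈ S2) with hβ
  have hα1 : ∀ v, v ∉ S3 → α v = i v := fun v hv => by simp [hα, hv]
  have hα2 : ∀ v, v ∈ S3 → α v = false := fun v hv => by simp [hα, hv]
  have hβ1 : ∀ v, v ∉ S2 → β v = !(o v) := fun v hv => by simp [hβ, hv]
  have hβ2 : ∀ v, v ∈ S2 → β v = true := fun v hv => by simp [hβ, hv]
  have hS2H : S2 ⊆ H := fun v hv => (hHmem v (hS2n v hv)).2 (Or.inr (Or.inl hv))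
  have hS3H : S3 ⊆ H := fun v hv => (hHmem v (hS3n v hv)).2 (Or.inr (Or.inr hv))
  have hS2o : ∀ v ∈ S2, o v = true := fun v hv => (hHost.labS v (hS2S hv)).1
  have hS3i : ∀ v ∈ S3, i v = true := fun v hv => (hHost.labS' v (hS3S hv)).1
  -- the sums
  have hsum : ∑ h ∈ H, apCost α β h = (H.filter fun h => α h = false).card +
      (H.filter fun h => β h = false).card := by
    unfold apCost
    rw [sum_add_distrib, card_filter, card_filter]
    congr 1
    · refine sum_congr rfl fun h _ => ?_
      cases α h <;> simp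
    · refine sum_congr rfl fun h _ => ?_
      cases β h <;> simp
  have hca : (H.filter fun h => α h = false).card = (H.filter fun h => i h = false).card + mm := by
    have h1 : (H.filter fun h => α h = false) = (H.filter fun h => i h = false) ∪ S3 := by
      ext v
      simp only [mem_filter, mem_union]
      constructor
      · rintro ⟨h1, h2⟩
        by_cases h3 : v ∈ S3
        · exact Or.inr h3
        · rw [hα1 v h3] at h2
          exact Or.inl ⟨h1, h2⟩
      · rintro (⟨h1, h2⟩ | h1)
        · refine ⟨h1, ?_⟩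
          rw [hα1 v ?_]
          · exact h2
          · intro h3
            rw [hS3i v h3] at h2
            exact Bool.noConfusion h2
        · exact ⟨hS3H h1, hα2 v h1⟩
    rw [h1, card_union_of_disjoint, hS3c]
    rw [Finset.disjoint_left]
    intro v h2 h3
    rw [mem_filter, hS3i v h3] at h2
    exact Bool.noConfusion h2.2
  have hcb : (H.filter fun h => o h = true).card = (H.filter fun h => β h = false).card + mp := by
    have h1 : (H.filter fun h => o h = true) = (H.filter fun h => β h = false) ∪ S2 := by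
      ext v
      simp only [mem_filter, mem_union]
      constructor
      · rintro ⟨h1, h2⟩
        by_cases h3 : v ∈ S2
        · exact Or.inr h3
        · left
          refine ⟨h1, ?_⟩
          rw [hβ1 v h3, h2]
          rfl
      · rintro (⟨h1, h2⟩ | h1)
        · refine ⟨h1, ?_⟩
          by_cases h3 : v ∈ S2
          · exact hS2o v h3
          · rw [hβ1 v h3] at h2
            revert h2
            cases o v <;> simp
        · exact ⟨hS2H h1, hS2o v h1⟩
    rw [h1, card_union_of_disjoint, hS2c]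
    rw [Finset.disjoint_left]
    intro v h2 h3
    rw [mem_filter, hβ2 v h3] at h2
    exact Bool.noConfusion h2.2
  have hS1i : (S1.filter fun h => i h = false).card = τc := by
    rw [hτc]
    split_ifs with hτ
    · rw [filter_true_of_mem, hS1c]
      intro v hv
      rw [(hHost.labS v (hS1 hv)).2, hτ]
      rfl
    · rw [filter_false_of_mem, card_empty]
      intro v hv
      rw [(hHost.labS v (hS1 hv)).2]
      revert hτ
      cases τ <;> simp
  set b := (B \ (S1 ∪ H)).card with hb
  have hBmem : ∀ v, v ∈ B \ (S1 ∪ H) ↔ v ∈ B ∧ v ∉ S1 ∧ v ∉ H := by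
    intro v
    rw [mem_sdiff, mem_union, not_or]
  have hout : ∀ v, v ∉ S1 → v ∉ H → v ∈ B ∨ v ∈ C := by
    intro v h1 h2
    rw [hHmem v h1] at h2
    by_contra h3
    push Not at h3
    exact h2 (Or.inl h3)
  have hni : ic + (τc + ((H.filter fun h => i h = false).card + b)) = n := by
    have h1 : (univ.filter fun u => i u = false) = (S1.filter fun h => i h = false) ∪
        ((H.filter fun h => i h = false) ∪ (B \ (S1 ∪ H))) := by
      ext v
      simp only [mem_filter, mem_univ, true_and, mem_union, hBmem]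
      constructor
      · intro h
        by_cases h1 : v ∈ S1
        · exact Or.inl ⟨h1, h⟩
        · by_cases h2 : v ∈ H
          · exact Or.inr (Or.inl ⟨h2, h⟩)
          · refine Or.inr (Or.inr ⟨?_, h1, h2⟩)
            rcases hout v h1 h2 with h3 | h3
            · exact h3
            · rw [(hHost.labC v h3).2] at h
              exact Bool.noConfusion h
      · rintro (h | h | h)
        · exact h.2
        · exact h.2
        · exact (hHost.labB v h.1).2
    have h2 : ic + (univ.filter fun u => i u = false).card = n := by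
      have := Finset.card_filter_add_card_filter_not (s := (univ : Finset V))
        (fun u => i u = true)
      rw [card_univ, hV] at this
      have h3 : (univ.filter fun u : V => ¬ i u = true) = (univ.filter fun u => i u = false) := by
        ext v
        simp
      rw [h3] at this
      exact this
    rw [h1, card_union_of_disjoint, card_union_of_disjoint, hS1i] at h2
    · exact h2
    · rw [Finset.disjoint_left]
      intro v h3 h4
      exact ((hBmem v).1 h4).2.2 (mem_filter.1 h3).1
    · rw [Finset.disjoint_left]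
      intro v h3 h4
      have h5 := (mem_filter.1 h3).1
      rcases mem_union.1 h4 with h6 | h6
      · exact (Finset.disjoint_left.1 hHS1 (mem_filter.1 h6).1) h5
      · exact ((hBmem v).1 h6).2.1 h5
  have hno : oc = kc + ((H.filter fun h => o h = true).card + b) := by
    have h1 : (univ.filter fun u => o u = true) = S1 ∪
        ((H.filter fun h => o h = true) ∪ (B \ (S1 ∪ H))) := by
      ext v
      simp only [mem_filter, mem_univ, true_and, mem_union, hBmem]
      constructor
      · intro h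
        by_cases h1 : v ∈ S1
        · exact Or.inl h1
        · by_cases h2 : v ∈ H
          · exact Or.inr (Or.inl ⟨h2, h⟩)
          · refine Or.inr (Or.inr ⟨?_, h1, h2⟩)
            rcases hout v h1 h2 with h3 | h3
            · exact h3
            · rw [(hHost.labC v h3).1] at h
              exact Bool.noConfusion h
      · rintro (h | h | h)
        · exact (hHost.labS v (hS1 h)).1
        · exact h.2
        · exact (hHost.labB v h.1).1
    rw [hoc, h1, card_union_of_disjoint, card_union_of_disjoint, hS1c]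
    · rw [Finset.disjoint_left]
      intro v h3 h4
      exact ((hBmem v).1 h4).2.2 (mem_filter.1 h3).1
    · rw [Finset.disjoint_left]
      intro v h5 h4
      rcases mem_union.1 h4 with h6 | h6
      · exact (Finset.disjoint_left.1 hHS1 (mem_filter.1 h6).1) h5
      · exact ((hBmem v).1 h6).2.1 h5
  have hcT : (univ.filter fun y => y ∉ Tl ∧ pos y = true).card + τc = NB := by
    have h1 : (univ.filter fun y => pos y = true) =
        (univ.filter fun y => y ∉ Tl ∧ pos y = true) ∪ (Tl.filter fun y => pos y = true) := by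
      ext y
      simp only [mem_filter, mem_univ, true_and, mem_union]
      tauto
    have h2 : (Tl.filter fun y => pos y = true).card = τc := by
      rw [hτc]
      split_ifs with hτ
      · rw [filter_true_of_mem]
        intro y hy
        rw [(hTree.tl y hy).2.1, hτ]
      · rw [filter_false_of_mem, card_empty]
        intro y hy
        rw [(hTree.tl y hy).2.1]
        exact hτ
    rw [hNB, h1, card_union_of_disjoint, h2]
    rw [Finset.disjoint_left]
    intro y h3 h4
    exact (mem_filter.1 h3).2.1 (mem_filter.1 h4).1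
  have hmain : 2 * b + ∑ h ∈ H, apCost α β h =
      2 * (univ.filter fun y => y ∉ Tl ∧ pos y = true).card := by
    rw [hsum, hca]
    omega
  have heven : Even (H.filter fun h => α h ≠ β h).card := by
    have h1 : ∑ h ∈ H, apCost α β h = (H.filter fun h => α h ≠ β h).card +
        2 * ∑ h ∈ H, (if α h = false ∧ β h = false then 1 else 0) := by
      rw [card_filter, mul_sum, ← sum_add_distrib]
      refine sum_congr rfl fun h _ => ?_
      unfold apCost
      cases α h <;> cases β h <;> simp
    rw [Nat.even_iff]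
    omega
  -- the sizes
  have hEc : E.card + B.card + C.card = n := by
    have h1 : (B ∪ C).card = B.card + C.card := card_union_of_disjoint hHost.nb.disj
    have h2 : E.card = n - (B ∪ C).card := by
      rw [hE, card_sdiff_of_subset (subset_univ _), card_univ, hV]
    have h3 : (B ∪ C).card ≤ n := by
      rw [← hV]
      exact card_le_univ _
    omega
  have hHc : H.card ≤ E.card + mp + mm := by
    have h1 : H.card ≤ (E ∪ S2 ∪ S3).card := card_le_card sdiff_subset
    have h2 := card_union_le (E ∪ S2) S3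
    have h3 := card_union_le E S2
    omega
  have hB := hHost.nb.cardB
  have hC := hHost.nb.cardC
  have hr1 : (oc : ℝ) ≤ ic + κ * n := by
    have := hHost.r1
    rw [hV] at this
    exact this
  rw [hV] at hB hC
  have hEc' : (E.card : ℝ) + B.card + C.card = n := by exact_mod_cast hEc
  have hE2 : (E.card : ℝ) ≤ 2 * (κ * n) := by linarith
  have hκn : 0 ≤ κ * (n : ℝ) := by
    have : (0 : ℝ) ≤ E.card := Nat.cast_nonneg _
    linarith
  have hmpm : ((mp + mm : ℕ) : ℝ) ≤ κ * n + 2 * L := by
    rcases hmz with h | ⟨h, _⟩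
    · rw [h, add_zero]
      have : ((mp + ic : ℕ) : ℝ) ≤ ((oc + L : ℕ) : ℝ) := by exact_mod_cast hmp
      push_cast at this
      have hL0 : (0 : ℝ) ≤ L := Nat.cast_nonneg _
      linarith
    · rw [h, zero_add]
      have : (mm : ℝ) ≤ ((2 * L : ℕ) : ℝ) := by exact_mod_cast hmm
      push_cast at this
      linarith
  have hHr : (H.card : ℝ) ≤ 3 * (κ * n) + 2 * L := by
    have : (H.card : ℝ) ≤ ((E.card + mp + mm : ℕ) : ℝ) := by exact_mod_cast hHc
    push_cast at this hmpm
    linarith
  have hLr : (L : ℝ) = K * (Nat.log 2 n + 1) := by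
    rw [hL]
    push_cast
    ring
  have hn' : 16 * (L : ℝ) ≤ η * n := by
    rw [hLr]
    calc 16 * ((K : ℝ) * (Nat.log 2 n + 1)) = 16 * K * (Nat.log 2 n + 1) := by ring
      _ ≤ η * n := hn
  have hκη : 8 * (κ * (n : ℝ)) ≤ η * n := by
    have := mul_le_mul_of_nonneg_right hκ (Nat.cast_nonneg n : (0 : ℝ) ≤ n)
    linarith
  have hHA : H.card ≤ A.card := by
    have h1 : (H.card : ℝ) ≤ A.card := by
      have := hTree.cardA
      have hL0 : (0 : ℝ) ≤ L := Nat.cast_nonneg _
      linarith
    exact_mod_cast h1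
  -- the construction
  obtain ⟨pl0, hbase⟩ := ap_base (T := T) (pos := pos) (Tl := Tl) (A := A) (seg := seg) α β
    eV S1 hS1c hTree.sep
  obtain ⟨pl, Fl, U, hst⟩ := ap_place hTree.segs hbase H.card H rfl hHS1 hHA heven
  obtain ⟨Sp, ψ, lab, Lf, lam, hSp, hmet⟩ := ap_finish Δ T hT hV D τ ω K η γ κ pos Tl hd A seg
    hTree B C o i S S' lv lv' (2 * L) hHost S1 S2 S3 H hS1 hS2S hS3S hHS1 hHmem α β hα1 hβ1 _
    pl Fl U hst hmain
  refine ⟨Sp, ψ, lab, Lf, lam, ?_, hmet⟩
  have h1 : (Sp.card : ℝ) ≤ ((S1.card + H.card : ℕ) : ℝ) := by exact_mod_cast hSp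
  rw [hS1c] at h1
  push_cast at h1
  have h2 : (kc : ℝ) ≤ L := by exact_mod_cast hkcL
  have h3 : (16 : ℝ) * K * (Nat.log 2 n + 1) = 16 * L := by
    rw [hLr]
    ring
  rw [h3]
  have hL0 : (0 : ℝ) ≤ L := Nat.cast_nonneg _
  linarith

end

end OT
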