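import Pool.Agent.Helper27.EX.RDefs
import Pool.Agent.Helper62.EX.TB

/-!
# MP_2857a5_co : module AP, part 1: from special vertices and labels to the data of the embedding
-/

set_option autoImplicit false

open Finset
open scoped Classical

namespace OT

noncomputable section

variable {n : ℕ}

theorem ap_arc_nb {T : PTree n} {x y : Fin n} (h : T.Arc x y) : T.Nb x y := by
  rcases h with ⟨h1, h2, _⟩ | ⟨h1, h2, _⟩
  · exact Or.inl ⟨h1, h2⟩
  · exact Or.inr ⟨h1, h2⟩

theorem ap_arc_nb' {T : PTree n} {x y : Fin n} (h : T.Arc x y) : T.Nb y x :=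
  (ap_arc_nb h).symm

theorem ap_nb_ne {T : PTree n} {x y : Fin n} (h : T.Nb x y) : x ≠ y := by
  rintro rfl
  rcases h with ⟨h1, h2⟩ | ⟨h1, h2⟩ <;>
  · have := T.lt x h1
    rw [h2] at this
    exact lt_irrefl _ this

theorem ap_arc_asymm {T : PTree n} {x y : Fin n} (h : T.Arc x y) (h' : T.Arc y x) : False := by
  rcases h with ⟨h1, h2, h3⟩ | ⟨h1, h2, h3⟩ <;> rcases h' with ⟨g1, g2, g3⟩ | ⟨g1, g2, g3⟩
  · have a := T.lt _ h1
    have b := T.lt _ g1
    rw [h2] at a
    rw [g2] at b
    exact lt_asymm a b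
  · rw [h3] at g3
    exact Bool.noConfusion g3
  · rw [h3] at g3
    exact Bool.noConfusion g3
  · have a := T.lt _ h1
    have b := T.lt _ g1
    rw [h2] at a
    rw [g2] at b
    exact lt_asymm a b

theorem ap_nb_arc {T : PTree n} {x y : Fin n} (h : T.Nb x y) : T.Arc x y ∨ T.Arc y x := by
  rcases h with ⟨h1, h2⟩ | ⟨h1, h2⟩
  · rcases hs : T.sg y with _ | _
    · exact Or.inr (Or.inr ⟨h1, h2, hs⟩)
    · exact Or.inl (Or.inl ⟨h1, h2, hs⟩)
  · rcases hs : T.sg x with _ | _
    · exact Or.inl (Or.inr ⟨h1, h2, hs⟩)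
    · exact Or.inr (Or.inl ⟨h1, h2, hs⟩)

theorem ap_nb_ball {T : PTree n} {x y : Fin n} (h : T.Nb x y) : y ∈ T.ball 3 x :=
  T.ball_mono (by norm_num) x h.mem_ball

/-- A vertex has at most `Δ + 1` neighbours, so they can be indexed. -/
theorem ap_index (Δ : ℕ) (T : PTree n) (hT : T.Deg Δ) (x : Fin n) :
    ∃ f : Fin n → Fin (Δ + 1), ∀ y y', T.Nb x y → T.Nb x y' → f y = f y' → y = y' := by
  set N : Finset (Fin n) := univ.filter fun y => T.Nb x y with hN
  have hsub : N ⊆ insert (T.par x) (T.ch x) := by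
    intro y hy
    rw [hN, mem_filter] at hy
    rcases hy.2 with ⟨h1, h2⟩ | ⟨_, h2⟩
    · exact mem_insert_of_mem (mem_filter.2 ⟨mem_univ _, h1, h2⟩)
    · rw [h2]
      exact mem_insert_self _ _
  have hcard : N.card ≤ Δ + 1 :=
    (card_le_card hsub).trans ((card_insert_le _ _).trans (Nat.add_le_add_right (hT x) 1))
  refine ⟨fun y => if h : y ∈ N then Fin.castLE hcard (N.equivFin ⟨y, h⟩) else 0, ?_⟩
  intro y y' hy hy' he
  have h1 : y ∈ N := by rw [hN, mem_filter]; exact ⟨mem_univ _, hy⟩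
  have h2 : y' ∈ N := by rw [hN, mem_filter]; exact ⟨mem_univ _, hy'⟩
  simp only [h1, h2, dif_pos] at he
  have h3 := (Fin.castLE_injective hcard) he
  have h4 := N.equivFin.injective h3
  exact congrArg Subtype.val h4

/-- The reserved images. -/
theorem ap_fin (Δ : ℕ) (T : PTree n) (hT : T.Deg Δ) {V : Type} [Fintype V]
    (hV : Fintype.card V = n) (D : V → V → Prop) (B C : Finset V) (o i : V → Bool)
    (S S' : Finset V) (lv lv' : V → Fin (Δ + 1) → V) (γ : ℝ) (hBC : Disjoint B C)
    (oS : ∀ u ∈ S, o u = true) (iS' : ∀ u ∈ S', i u = true)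
    (hout : ∀ u, γ * (Fintype.card V : ℝ) ≤
      (((if o u = true then C else B) ∩ adjN D true u).card : ℝ))
    (hinn : ∀ u, γ * (Fintype.card V : ℝ) ≤
      (((if i u = true then B else C) ∩ adjN D false u).card : ℝ))
    (st : Stars D true (Δ + 1) S B lv) (st' : Stars D false (Δ + 1) S' C lv')
    (Sp : Finset (Fin n)) (ψ : Fin n → V) (lab : Fin n → Bool)
    (sep : ∀ a ∈ Sp, ∀ b ∈ Sp, a ≠ b → b ∉ T.ball 3 a) (inj : Set.InjOn ψ Sp)
    (all : ∀ v, v ∉ B → v ∉ C → v ∈ Sp.image ψ)
    (hB : ∀ x ∈ Sp, ψ x ∈ B → ψ x ∈ S) (hC : ∀ x ∈ Sp, ψ x ∈ C → ψ x ∈ S')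
    (arc : ∀ x y, T.Arc x y → x ∉ Sp → y ∉ Sp → lab x ≠ lab y)
    (ho : ∀ x ∈ Sp, ∀ y, T.Arc x y → lab y = !(o (ψ x)) ∨ ψ x ∈ S)
    (hi : ∀ x ∈ Sp, ∀ y, T.Arc y x → lab y = i (ψ x) ∨ ψ x ∈ S')
    (cnt : (univ.filter fun y => y ∉ Sp ∧ lab y = true).card = (B \ Sp.image ψ).card) :
    ∃ (Lf : Finset (Fin n)) (lam : Fin n → V),
      MetData D T (fun b : Bool => if b = true then B else C) (fun a b => a ≠ b) γ Sp ψ lab
        Lf lam := by
  choose idx hidx using ap_index Δ T hT
  set Good : Fin n → Fin n → Prop := fun x y =>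
    x ∈ Sp ∧ ((T.Arc x y ∧ lab y = o (ψ x)) ∨ (T.Arc y x ∧ lab y = !(i (ψ x)))) with hGood
  set Lf : Finset (Fin n) := univ.filter fun y => y ∉ Sp ∧ ∃ x, Good x y with hLf
  have hch : ∀ y : Fin n, ∃ x : Fin n, (∃ x, Good x y) → Good x y := by
    intro y
    by_cases h : ∃ x, Good x y
    · exact ⟨h.choose, fun _ => h.choose_spec⟩
    · exact ⟨y, fun h' => absurd h' h⟩
  choose sx hsx using hch
  have hsxL : ∀ y ∈ Lf, Good (sx y) y := by
    intro y hy
    rw [hLf, mem_filter] at hy
    exact hsx y hy.2.2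
  have hGnb : ∀ x y, Good x y → T.Nb x y := by
    rintro x y ⟨_, ⟨h, _⟩ | ⟨h, _⟩⟩
    · exact ap_arc_nb h
    · exact ap_arc_nb' h
  have huniq : ∀ x ∈ Sp, ∀ x' ∈ Sp, ∀ y, T.Nb x y → T.Nb x' y → x = x' := by
    intro x hx x' hx' y h h'
    by_contra hne
    refine sep x hx x' hx' hne ?_
    exact T.ball_mono (by norm_num : 1 + 1 ≤ 3) x
      (PTree.ball_trans h.mem_ball h'.symm.mem_ball)
  have hnbSp : ∀ x ∈ Sp, ∀ y, T.Nb x y → y ∉ Sp := by
    intro x hx y h hy
    exact sep x hx y hy (ap_nb_ne h) (ap_nb_ball h)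
  set lam : Fin n → V := fun y =>
    if T.Arc (sx y) y then lv (ψ (sx y)) (idx (sx y) y) else lv' (ψ (sx y)) (idx (sx y) y)
    with hlam
  -- the two cases
  have hcase : ∀ y ∈ Lf, sx y ∈ Sp ∧
      ((T.Arc (sx y) y ∧ ψ (sx y) ∈ S ∧ lab y = true ∧
        lam y = lv (ψ (sx y)) (idx (sx y) y)) ∨
      (T.Arc y (sx y) ∧ ψ (sx y) ∈ S' ∧ lab y = false ∧
        lam y = lv' (ψ (sx y)) (idx (sx y) y))) := by
    intro y hy
    obtain ⟨h1, h2⟩ := hsxL y hy
    refine ⟨h1, ?_⟩
    rcases h2 with ⟨ha, hl⟩ | ⟨ha, hl⟩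
    · left
      have hs : ψ (sx y) ∈ S := by
        rcases ho _ h1 y ha with h | h
        · rw [hl] at h
          exact absurd h (by cases o (ψ (sx y)) <;> simp)
        · exact h
      refine ⟨ha, hs, by rw [hl, oS _ hs], ?_⟩
      simp only [hlam, if_pos ha]
    · right
      have hs : ψ (sx y) ∈ S' := by
        rcases hi _ h1 y ha with h | h
        · rw [hl] at h
          exact absurd h (by cases i (ψ (sx y)) <;> simp)
        · exact h
      refine ⟨ha, hs, by rw [hl, iS' _ hs]; rfl, ?_⟩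
      have : ¬ T.Arc (sx y) y := fun h => ap_arc_asymm ha h
      simp only [hlam, if_neg this]
  have hnlv : ∀ u ∈ S, ∀ j, lv u j ∉ Sp.image ψ := by
    intro u hu j hj
    obtain ⟨x, hx, he⟩ := mem_image.1 hj
    have h := st.adj u hu j
    rw [← he] at h
    exact h.2.2 (hB x hx h.1)
  have hnlv' : ∀ u ∈ S', ∀ j, lv' u j ∉ Sp.image ψ := by
    intro u hu j hj
    obtain ⟨x, hx, he⟩ := mem_image.1 hj
    have h := st'.adj u hu j
    rw [← he] at h
    exact h.2.2 (hC x hx h.1)
  have himc : (Sp.image ψ).card = Sp.card := card_image_of_injOn inj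
  refine ⟨Lf, lam, ?_⟩
  refine
    { sep := sep
      inj := inj
      all := ?_
      arc := arc
      linj := ?_
      leaf := ?_
      outL := ?_
      inL := ?_
      outF := ?_
      inF := ?_
      count := ?_ }
  · intro v hv
    refine all v ?_ ?_
    · have := hv true
      simpa using this
    · have := hv false
      simpa using this
  · -- injectivity of `lam`
    intro y hy y' hy' he
    obtain ⟨h1, h2⟩ := hcase y hy
    obtain ⟨h1', h2'⟩ := hcase y' hy'
    have nb := hGnb _ _ (hsxL y hy)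
    have nb' := hGnb _ _ (hsxL y' hy')
    rcases h2 with ⟨_, hs, _, hl⟩ | ⟨_, hs, _, hl⟩ <;>
      rcases h2' with ⟨_, hs', _, hl'⟩ | ⟨_, hs', _, hl'⟩
    · rw [hl, hl'] at he
      obtain ⟨e1, e2⟩ := st.inj _ hs _ hs' _ _ he
      have e3 := inj h1 h1' e1
      rw [← e3] at e2 nb'
      exact hidx _ _ _ nb nb' e2
    · exfalso
      have a := (st.adj _ hs (idx (sx y) y)).1
      have b := (st'.adj _ hs' (idx (sx y') y')).1
      rw [← hl, he, hl'] at a
      exact (Finset.disjoint_left.1 hBC a) b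
    · exfalso
      have a := (st'.adj _ hs (idx (sx y) y)).1
      have b := (st.adj _ hs' (idx (sx y') y')).1
      rw [← hl, he, hl'] at a
      exact (Finset.disjoint_left.1 hBC b) a
    · rw [hl, hl'] at he
      obtain ⟨e1, e2⟩ := st'.inj _ hs _ hs' _ _ he
      have e3 := inj h1 h1' e1
      rw [← e3] at e2 nb'
      exact hidx _ _ _ nb nb' e2
  · -- leaves
    intro y hy
    have hy1 : y ∉ Sp := by
      rw [hLf, mem_filter] at hy
      exact hy.2.1
    refine ⟨hy1, ?_⟩
    obtain ⟨_, h2⟩ := hcase y hy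
    rcases h2 with ⟨_, hs, hb, hl⟩ | ⟨_, hs, hb, hl⟩
    · rw [hl, hb]
      exact ⟨by simpa using (st.adj _ hs _).1, hnlv _ hs _⟩
    · rw [hl, hb]
      exact ⟨by simpa using (st'.adj _ hs _).1, hnlv' _ hs _⟩
  · intro x hx y hy hxy
    obtain ⟨h1, h2⟩ := hcase y hy
    have hxe : sx y = x := huniq _ h1 _ hx y (hGnb _ _ (hsxL y hy)) (ap_arc_nb hxy)
    rw [hxe] at h2
    rcases h2 with ⟨_, hs, _, hl⟩ | ⟨ha, _⟩
    · rw [hl]
      have := (st.adj _ hs (idx x y)).2.1
      simpa [Adj] using this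
    · exact absurd hxy (fun h => ap_arc_asymm ha h)
  · intro x hx y hy hxy
    obtain ⟨h1, h2⟩ := hcase y hy
    have hxe : sx y = x := huniq _ h1 _ hx y (hGnb _ _ (hsxL y hy)) (ap_arc_nb' hxy)
    rw [hxe] at h2
    rcases h2 with ⟨ha, _⟩ | ⟨_, hs, _, hl⟩
    · exact absurd hxy (fun h => ap_arc_asymm ha h)
    · rw [hl]
      have := (st'.adj _ hs (idx x y)).2.1
      simpa [Adj] using this
  · intro x hx y hy hxy
    have hys : y ∉ Sp := hnbSp x hx y (ap_arc_nb hxy)
    have hne : ¬ (lab y = o (ψ x)) := by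
      intro h
      apply hy
      rw [hLf, mem_filter]
      exact ⟨mem_univ _, hys, x, hx, Or.inl ⟨hxy, h⟩⟩
    have h := hout (ψ x)
    rw [hV] at h
    have hW : (if lab y = true then B else C) = (if o (ψ x) = true then C else B) := by
      revert hne
      cases o (ψ x) <;> cases lab y <;> simp
    show γ * (n : ℝ) ≤ (((if lab y = true then B else C) ∩ adjN D true (ψ x)).card : ℝ)
    rw [hW]
    exact h
  · intro x hx y hy hxy
    have hys : y ∉ Sp := hnbSp x hx y (ap_arc_nb' hxy)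
    have hne : ¬ (lab y = !(i (ψ x))) := by
      intro h
      apply hy
      rw [hLf, mem_filter]
      exact ⟨mem_univ _, hys, x, hx, Or.inr ⟨hxy, h⟩⟩
    have h := hinn (ψ x)
    rw [hV] at h
    have hW : (if lab y = true then B else C) = (if i (ψ x) = true then B else C) := by
      revert hne
      cases i (ψ x) <;> cases lab y <;> simp
    show γ * (n : ℝ) ≤ (((if lab y = true then B else C) ∩ adjN D false (ψ x)).card : ℝ)
    rw [hW]
    exact h
  · -- counting
    have e1 : (univ.filter fun y : Fin n => y ∉ Sp ∧ lab y = true).card +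
        (univ.filter fun y : Fin n => y ∉ Sp ∧ lab y = false).card + Sp.card = n := by
      have h1 : (univ.filter fun y : Fin n => y ∉ Sp).card + Sp.card = n := by
        have := Finset.card_filter_add_card_filter_not (s := (univ : Finset (Fin n)))
          (fun y => y ∈ Sp)
        simp at this
        have h2 : (univ.filter fun y : Fin n => y ∈ Sp) = Sp := by
          ext y; simp
        omega
      have h2 := Finset.card_filter_add_card_filter_not
        (s := (univ.filter fun y : Fin n => y ∉ Sp)) (fun y => lab y = true)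
      rw [Finset.filter_filter, Finset.filter_filter] at h2
      have h3 : (univ.filter fun y : Fin n => y ∉ Sp ∧ lab y = false) =
          (univ.filter fun y : Fin n => y ∉ Sp ∧ ¬ lab y = true) := by
        ext y; simp
      rw [h3]
      omega
    have e2 : (B \ Sp.image ψ).card + (C \ Sp.image ψ).card + (Sp.image ψ).card = n := by
      have h1 : Disjoint (B \ Sp.image ψ) (C \ Sp.image ψ) :=
        Finset.disjoint_of_subset_left sdiff_subset
          (Finset.disjoint_of_subset_right sdiff_subset hBC)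
      have h2 : Disjoint ((B \ Sp.image ψ) ∪ (C \ Sp.image ψ)) (Sp.image ψ) := by
        rw [Finset.disjoint_union_left]
        exact ⟨Finset.sdiff_disjoint, Finset.sdiff_disjoint⟩
      rw [← card_union_of_disjoint h1, ← card_union_of_disjoint h2]
      refine Eq.trans ?_ hV
      rw [← Finset.card_univ]
      congr 1
      ext v
      simp only [mem_union, mem_sdiff, mem_univ, iff_true]
      by_cases hv : v ∈ Sp.image ψ
      · exact Or.inr hv
      · left
        by_cases hb : v ∈ B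
        · exact Or.inl ⟨hb, hv⟩
        · by_cases hc : v ∈ C
          · exact Or.inr ⟨hc, hv⟩
          · exact absurd (all v hb hc) hv
    have e3 : (univ.filter fun y : Fin n => y ∉ Sp ∧ lab y = false).card =
        (C \ Sp.image ψ).card := by omega
    intro k
    cases k
    · convert e3 using 2
      · ext y
        simp only [mem_filter]
      · rw [if_neg (by simp)]
    · convert cnt using 2
      · ext y
        simp only [mem_filter]
      · rw [if_pos rfl]

end

end OT
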