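import Pool.Agent.Helper48.EX.AP1

/-!
# MP_2857a5_co : module AP, part 2: placing the hosts one segment at a time
-/

set_option autoImplicit false

open Finset
open scoped Classical

namespace OT

noncomputable section

variable {n : ℕ} {V : Type}

/-- The number of the labels among the two prescribed ones which are `false`. -/
def apCost (α β : V → Bool) (h : V) : ℕ :=
  (if α h = true then 0 else 1) + (if β h = true then 0 else 1)

/-- The state of the construction: `Im` are the vertices of the digraph placed so far, `pl` is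
their place in the tree, `Fl` is the set of the flipped vertices and `U` is the set of the used
segments. -/
structure ApSt (T : PTree n) (pos : Fin n → Bool) (Tl A : Finset (Fin n))
    (seg : Fin n → ℕ → Fin n) (α β : V → Bool) (c : ℕ) (S1 Im : Finset V) (pl : V → Fin n)
    (Fl U : Finset (Fin n)) : Prop where
  sub : S1 ⊆ Im
  UA : U ⊆ A
  tl : S1.image pl = Tl
  place : ∀ h ∈ Im, h ∉ S1 → ∃ a ∈ U, ∃ j, j ≤ 7 ∧ pl h = seg a j
  flip : ∀ y ∈ Fl, ∃ a ∈ U, ∃ j, j ≤ 7 ∧ y = seg a j
  sep : ∀ h ∈ Im, ∀ h' ∈ Im, h ≠ h' → pl h' ∉ T.ball 3 (pl h)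
  arc : ∀ x y, T.Nb x y → x ∉ Im.image pl → y ∉ Im.image pl → x ∈ Fl → y ∈ Fl
  out : ∀ h ∈ Im, h ∉ S1 → ∀ y, T.Arc (pl h) y → xor (pos y) (decide (y ∈ Fl)) = β h
  inn : ∀ h ∈ Im, h ∉ S1 → ∀ y, T.Arc y (pl h) → xor (pos y) (decide (y ∈ Fl)) = α h
  cnt : 2 * (univ.filter fun y => y ∉ Im.image pl ∧
    xor (pos y) (decide (y ∈ Fl)) = true).card + ∑ h ∈ Im \ S1, apCost α β h = c
  card : U.card ≤ (Im \ S1).card

theorem ap_step {T : PTree n} {pos : Fin n → Bool} {Tl A : Finset (Fin n)}
    {seg : Fin n → ℕ → Fin n} (hseg : Segs T pos Tl A seg) {α β : V → Bool} {c : ℕ}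
    {S1 Im : Finset V} {pl : V → Fin n} {Fl U : Finset (Fin n)}
    (st : ApSt T pos Tl A seg α β c S1 Im pl Fl U) (a : Fin n) (haA : a ∈ A) (haU : a ∉ U)
    (Hn : Finset V) (hne : Hn.Nonempty) (hdisj : Disjoint Hn Im) (ix : V → ℕ) (F : ℕ → Bool)
    (L1 : ∀ h ∈ Hn, 1 ≤ ix h ∧ ix h ≤ 7)
    (L2 : ∀ h ∈ Hn, ∀ h' ∈ Hn, h ≠ h' → ix h + 4 ≤ ix h' ∨ ix h' + 4 ≤ ix h)
    (L3 : ∀ j, F j = true → 1 ≤ j ∧ j ≤ 7)
    (L4 : ∀ j, j < 8 → j ∉ Hn.image ix → j + 1 ∉ Hn.image ix → F j = F (j + 1))
    (L5 : ∀ h ∈ Hn, xor (decide (Even (ix h + 1))) (F (ix h + 1)) = β h)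
    (L6 : ∀ h ∈ Hn, xor (decide (Even (ix h - 1))) (F (ix h - 1)) = α h)
    (L7 : 2 * ((range 9).filter fun j => j ∉ Hn.image ix ∧
      xor (decide (Even j)) (F j) = true).card + ∑ h ∈ Hn, apCost α β h = 10) :
    ApSt T pos Tl A seg α β c S1 (Im ∪ Hn) (fun h => if h ∈ Hn then seg a (ix h) else pl h)
      (Fl ∪ ((range 9).filter fun j => F j = true).image (seg a)) (insert a U) := by
  have hfar : ∀ x, (x ∈ Tl ∨ ∃ a' ∈ U, ∃ j, j ≤ 7 ∧ x = seg a' j) → ∀ j, j ≤ 8 →
      seg a j ∉ T.ball 3 x := by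
    rintro x (hx | ⟨a', ha', j', hj', rfl⟩) j hj
    · exact hseg.bad a haA j hj x hx
    · refine hseg.sep a' (st.UA ha') a haA ?_ j' j (by omega) hj
      rintro rfl
      exact haU ha'
  have hplace : ∀ h ∈ Im, pl h ∈ Tl ∨ ∃ a' ∈ U, ∃ j, j ≤ 7 ∧ pl h = seg a' j := by
    intro h hh
    by_cases h1 : h ∈ S1
    · left
      rw [← st.tl]
      exact mem_image_of_mem _ h1
    · exact Or.inr (st.place h hh h1)
  have hImfar : ∀ h ∈ Im, ∀ j, j ≤ 8 → seg a j ∉ T.ball 3 (pl h) := fun h hh =>
    hfar _ (hplace h hh)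
  have hImne : ∀ j, j ≤ 8 → seg a j ∉ Im.image pl := by
    intro j hj hmem
    obtain ⟨h, hh, he⟩ := mem_image.1 hmem
    have := hImfar h hh j hj
    rw [← he] at this
    exact this (T.self_mem_ball 3 _)
  have hFlne : ∀ j, j ≤ 8 → seg a j ∉ Fl := by
    intro j hj hmem
    exact hfar _ (Or.inr (st.flip _ hmem)) j hj (T.self_mem_ball 3 _)
  have hHnIm : ∀ h ∈ Im, h ∉ Hn := fun h hh hn => (Finset.disjoint_left.1 hdisj hn) hh
  set pl' : V → Fin n := fun h => if h ∈ Hn then seg a (ix h) else pl h with hpl'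
  have hpl1 : ∀ h ∈ Im, pl' h = pl h := fun h hh => by
    simp only [hpl', if_neg (hHnIm h hh)]
  have hpl2 : ∀ h ∈ Hn, pl' h = seg a (ix h) := fun h hh => by
    simp only [hpl', if_pos hh]
  set Fl' : Finset (Fin n) := Fl ∪ ((range 9).filter fun j => F j = true).image (seg a)
    with hFl'
  have himg : ∀ y, y ∈ (Im ∪ Hn).image pl' ↔ y ∈ Im.image pl ∨ ∃ h ∈ Hn, y = seg a (ix h) := by
    intro y
    rw [mem_image]
    constructor
    · rintro ⟨h, hh, rfl⟩
      rcases mem_union.1 hh with h1 | h1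
      · left
        rw [hpl1 h h1]
        exact mem_image_of_mem _ h1
      · exact Or.inr ⟨h, h1, hpl2 h h1⟩
    · rintro (h1 | ⟨h, h1, rfl⟩)
      · obtain ⟨h, hh, rfl⟩ := mem_image.1 h1
        exact ⟨h, mem_union_left _ hh, hpl1 h hh⟩
      · exact ⟨h, mem_union_right _ h1, hpl2 h h1⟩
  have himgseg : ∀ j, j ≤ 8 → (seg a j ∈ (Im ∪ Hn).image pl' ↔ j ∈ Hn.image ix) := by
    intro j hj
    rw [himg]
    constructor
    · rintro (h1 | ⟨h, h1, he⟩)
      · exact absurd h1 (hImne j hj)
      · exact mem_image.2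
          ⟨h, h1, (hseg.inj a haA j (ix h) hj (by have := L1 h h1; omega) he).symm⟩
    · intro hj'
      obtain ⟨h, h1, rfl⟩ := mem_image.1 hj'
      exact Or.inr ⟨h, h1, rfl⟩
  have hflseg : ∀ j, j ≤ 8 → (seg a j ∈ Fl' ↔ F j = true) := by
    intro j hj
    rw [hFl', mem_union, mem_image]
    constructor
    · rintro (h1 | ⟨j', h1, he⟩)
      · exact absurd h1 (hFlne j hj)
      · rw [mem_filter, mem_range] at h1
        have := hseg.inj a haA j' j (by omega) hj he
        rw [← this]
        exact h1.2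
    · intro h1
      exact Or.inr ⟨j, by rw [mem_filter, mem_range]; exact ⟨by omega, h1⟩, rfl⟩
  have hflother : ∀ y, (∀ j, j ≤ 8 → y ≠ seg a j) → (y ∈ Fl' ↔ y ∈ Fl) := by
    intro y hy
    rw [hFl', mem_union, mem_image]
    constructor
    · rintro (h1 | ⟨j', h1, he⟩)
      · exact h1
      · rw [mem_filter, mem_range] at h1
        exact absurd he.symm (hy j' (by omega))
    · exact Or.inl
  have himgother : ∀ y, (∀ j, j ≤ 8 → y ≠ seg a j) →
      (y ∈ (Im ∪ Hn).image pl' ↔ y ∈ Im.image pl) := by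
    intro y hy
    rw [himg]
    constructor
    · rintro (h1 | ⟨h, h1, he⟩)
      · exact h1
      · exact absurd he (hy _ (by have := L1 h h1; omega))
    · exact Or.inl
  -- neighbours of the inner vertices of the segment
  have hnbseg : ∀ j, 1 ≤ j → j ≤ 7 → ∀ y, T.Nb (seg a j) y → y = seg a (j - 1) ∨
      y = seg a (j + 1) := by
    intro j h1 h2 y hy
    obtain ⟨k, rfl⟩ : ∃ k, j = k + 1 := ⟨j - 1, by omega⟩
    exact hseg.deg a haA k (by omega) y hy
  have hS1 : ∀ h ∈ Hn, h ∉ S1 := fun h hh h1 => hHnIm h (st.sub h1) hh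
  refine
    { sub := st.sub.trans subset_union_left
      UA := ?_
      tl := ?_
      place := ?_
      flip := ?_
      sep := ?_
      arc := ?_
      out := ?_
      inn := ?_
      cnt := ?_
      card := ?_ }
  · intro x hx
    rcases mem_insert.1 hx with rfl | h
    · exact haA
    · exact st.UA h
  · refine Eq.trans ?_ st.tl
    exact image_congr fun h hh => hpl1 h (st.sub hh)
  · intro h hh h1
    rcases mem_union.1 hh with h2 | h2
    · obtain ⟨a', ha', j, hj, he⟩ := st.place h h2 h1
      exact ⟨a', mem_insert_of_mem ha', j, hj, by rw [hpl1 h h2, he]⟩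
    · exact ⟨a, mem_insert_self _ _, ix h, (L1 h h2).2, hpl2 h h2⟩
  · intro y hy
    rw [hFl', mem_union, mem_image] at hy
    rcases hy with h1 | ⟨j, h1, rfl⟩
    · obtain ⟨a', ha', j, hj, he⟩ := st.flip y h1
      exact ⟨a', mem_insert_of_mem ha', j, hj, he⟩
    · rw [mem_filter] at h1
      exact ⟨a, mem_insert_self _ _, j, (L3 j h1.2).2, rfl⟩
  · intro h hh h' hh' hne'
    rcases mem_union.1 hh with h1 | h1 <;> rcases mem_union.1 hh' with h2 | h2
    · rw [hpl1 h h1, hpl1 h' h2]
      exact st.sep h h1 h' h2 hne'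
    · rw [hpl1 h h1, hpl2 h' h2]
      exact hImfar h h1 _ (by have := L1 h' h2; omega)
    · rw [hpl2 h h1, hpl1 h' h2, T.mem_ball_comm]
      exact hImfar h' h2 _ (by have := L1 h h1; omega)
    · rw [hpl2 h h1, hpl2 h' h2]
      have a1 := L1 h h1
      have a2 := L1 h' h2
      rcases L2 h h1 h' h2 hne' with h3 | h3
      · exact (hseg.dist a haA _ _ h3 (by omega)).1
      · exact (hseg.dist a haA _ _ h3 (by omega)).2
  · intro x y hnb hx hy hxF
    rw [hFl', mem_union] at hxF
    rcases hxF with h1 | h1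
    · rw [hFl', mem_union]
      left
      refine st.arc x y hnb ?_ ?_ h1
      · exact fun h => hx ((himg x).2 (Or.inl h))
      · exact fun h => hy ((himg y).2 (Or.inl h))
    · obtain ⟨j, h2, rfl⟩ := mem_image.1 h1
      rw [mem_filter, mem_range] at h2
      have h3 := L3 j h2.2
      have h4 : j ∉ Hn.image ix := fun h => hx ((himgseg j (by omega)).2 h)
      rcases hnbseg j h3.1 h3.2 y hnb with rfl | rfl
      · rw [hflseg _ (by omega)]
        have h5 : j - 1 ∉ Hn.image ix := fun h => hy ((himgseg (j - 1) (by omega)).2 h)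
        have h6 := L4 (j - 1) (by omega) h5 (by rw [Nat.sub_add_cancel h3.1]; exact h4)
        rw [Nat.sub_add_cancel h3.1] at h6
        rw [h6]
        exact h2.2
      · rw [hflseg _ (by omega)]
        have h5 : j + 1 ∉ Hn.image ix := fun h => hy ((himgseg (j + 1) (by omega)).2 h)
        rw [← L4 j (by omega) h4 h5]
        exact h2.2
  · intro h hh h1 y hy
    rcases mem_union.1 hh with h2 | h2
    · rw [hpl1 h h2] at hy
      have h3 : ∀ j, j ≤ 8 → y ≠ seg a j := by
        rintro j hj rfl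
        exact hImfar h h2 j hj (ap_nb_ball (ap_arc_nb hy))
      rw [← st.out h h2 h1 y hy]
      congr 1
      exact decide_eq_decide.2 (hflother y h3)
    · rw [hpl2 h h2] at hy
      have a1 := L1 h h2
      rcases hnbseg _ a1.1 a1.2 y (ap_arc_nb hy) with rfl | rfl
      · exfalso
        have := hseg.arc a haA (ix h - 1) (by omega)
        rw [Nat.sub_add_cancel a1.1] at this
        exact ap_arc_asymm hy this
      · rw [← L5 h h2, hseg.pos a haA _ (by omega)]
        congr 1
        rw [Bool.eq_iff_iff, decide_eq_true_iff]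
        exact hflseg _ (by omega)
  · intro h hh h1 y hy
    rcases mem_union.1 hh with h2 | h2
    · rw [hpl1 h h2] at hy
      have h3 : ∀ j, j ≤ 8 → y ≠ seg a j := by
        rintro j hj rfl
        exact hImfar h h2 j hj (ap_nb_ball (ap_arc_nb' hy))
      rw [← st.inn h h2 h1 y hy]
      congr 1
      exact decide_eq_decide.2 (hflother y h3)
    · rw [hpl2 h h2] at hy
      have a1 := L1 h h2
      rcases hnbseg _ a1.1 a1.2 y (ap_arc_nb' hy) with rfl | rfl
      · rw [← L6 h h2, hseg.pos a haA _ (by omega)]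
        congr 1
        rw [Bool.eq_iff_iff, decide_eq_true_iff]
        exact hflseg _ (by omega)
      · exfalso
        have := hseg.arc a haA (ix h) (by omega)
        exact ap_arc_asymm hy this
  · -- the count
    set N : Finset (Fin n) := univ.filter fun y => y ∉ Im.image pl ∧
      xor (pos y) (decide (y ∈ Fl)) = true with hN
    set N' : Finset (Fin n) := univ.filter fun y => y ∉ (Im ∪ Hn).image pl' ∧
      xor (pos y) (decide (y ∈ Fl')) = true with hN'
    set G : Finset (Fin n) := (range 9).image (seg a) with hG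
    have hGmem : ∀ y, y ∉ G → ∀ j, j ≤ 8 → y ≠ seg a j := by
      rintro y hy j hj rfl
      exact hy (mem_image_of_mem _ (mem_range.2 (by omega)))
    have hinj : ∀ s : Finset ℕ, s ⊆ range 9 → (s.image (seg a)).card = s.card := by
      intro s hs
      refine card_image_of_injOn ?_
      intro j hj j' hj' he
      have b1 := mem_range.1 (hs hj)
      have b2 := mem_range.1 (hs hj')
      exact hseg.inj a haA j j' (by omega) (by omega) he
    have e1 : N \ G = N' \ G := by
      ext y
      simp only [mem_sdiff, hN, hN', mem_filter, mem_univ, true_and]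
      constructor
      · rintro ⟨⟨h1, h2⟩, h3⟩
        refine ⟨⟨?_, ?_⟩, h3⟩
        · rw [himgother y (hGmem y h3)]
          exact h1
        · rw [decide_eq_decide.2 (hflother y (hGmem y h3))]
          exact h2
      · rintro ⟨⟨h1, h2⟩, h3⟩
        refine ⟨⟨?_, ?_⟩, h3⟩
        · rw [himgother y (hGmem y h3)] at h1
          exact h1
        · rw [decide_eq_decide.2 (hflother y (hGmem y h3))] at h2
          exact h2
    have e2 : N ∩ G = ((range 9).filter fun j => Even j).image (seg a) := by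
      ext y
      rw [mem_inter, hG, mem_image, mem_image]
      constructor
      · rintro ⟨h1, j, hj, rfl⟩
        rw [mem_range] at hj
        rw [hN, mem_filter] at h1
        refine ⟨j, ?_, rfl⟩
        rw [mem_filter, mem_range]
        refine ⟨hj, ?_⟩
        have h2 := h1.2.2
        rw [hseg.pos a haA j (by omega), decide_eq_false (hFlne j (by omega)),
          Bool.xor_false, decide_eq_true_iff] at h2
        exact h2
      · rintro ⟨j, hj, rfl⟩
        rw [mem_filter, mem_range] at hj
        refine ⟨?_, j, mem_range.2 hj.1, rfl⟩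
        rw [hN, mem_filter]
        refine ⟨mem_univ _, hImne j (by omega), ?_⟩
        rw [hseg.pos a haA j (by omega), decide_eq_false (hFlne j (by omega)),
          Bool.xor_false, decide_eq_true_iff]
        exact hj.2
    have e3 : N' ∩ G = ((range 9).filter fun j => j ∉ Hn.image ix ∧
        xor (decide (Even j)) (F j) = true).image (seg a) := by
      ext y
      rw [mem_inter, hG, mem_image, mem_image]
      have hd : ∀ j, j ≤ 8 → decide (seg a j ∈ Fl') = F j := by
        intro j hj
        rw [Bool.eq_iff_iff, decide_eq_true_iff]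
        exact hflseg j hj
      constructor
      · rintro ⟨h1, j, hj, rfl⟩
        rw [mem_range] at hj
        rw [hN', mem_filter] at h1
        refine ⟨j, ?_, rfl⟩
        rw [mem_filter, mem_range]
        refine ⟨hj, fun h => h1.2.1 ((himgseg j (by omega)).2 h), ?_⟩
        have h2 := h1.2.2
        rw [hseg.pos a haA j (by omega), hd j (by omega)] at h2
        exact h2
      · rintro ⟨j, hj, rfl⟩
        rw [mem_filter, mem_range] at hj
        refine ⟨?_, j, mem_range.2 hj.1, rfl⟩
        rw [hN', mem_filter]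
        refine ⟨mem_univ _, fun h => hj.2.1 ((himgseg j (by omega)).1 h), ?_⟩
        rw [hseg.pos a haA j (by omega), hd j (by omega)]
        exact hj.2.2
    have c1 : N.card = (N \ G).card + (N ∩ G).card := (card_sdiff_add_card_inter N G).symm
    have c2 : N'.card = (N' \ G).card + (N' ∩ G).card := (card_sdiff_add_card_inter N' G).symm
    have c3 : (N ∩ G).card = 5 := by
      rw [e2, hinj _ (filter_subset _ _)]
      decide
    have c4 : (N' ∩ G).card = ((range 9).filter fun j => j ∉ Hn.image ix ∧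
        xor (decide (Even j)) (F j) = true).card := by
      rw [e3, hinj _ (filter_subset _ _)]
    have c5 : (Im ∪ Hn) \ S1 = (Im \ S1) ∪ Hn := by
      ext h
      simp only [mem_sdiff, mem_union]
      constructor
      · rintro ⟨h1 | h1, h2⟩
        · exact Or.inl ⟨h1, h2⟩
        · exact Or.inr h1
      · rintro (⟨h1, h2⟩ | h1)
        · exact ⟨Or.inl h1, h2⟩
        · exact ⟨Or.inr h1, hS1 h h1⟩
    have c6 : Disjoint (Im \ S1) Hn := by
      rw [Finset.disjoint_left]
      intro h h1 h2
      exact hHnIm h (mem_sdiff.1 h1).1 h2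
    rw [c5, sum_union c6]
    have := st.cnt
    rw [← hN] at this
    rw [c2, ← e1, c4]
    rw [c1, c3] at this
    omega
  · have h1 : (insert a U).card ≤ U.card + 1 := card_insert_le _ _
    obtain ⟨h0, hh0⟩ := hne
    have h2 : (Im \ S1).card < ((Im ∪ Hn) \ S1).card := by
      refine card_lt_card ?_
      rw [Finset.ssubset_iff_of_subset (sdiff_subset_sdiff subset_union_left subset_rfl)]
      exact ⟨h0, mem_sdiff.2 ⟨mem_union_right _ hh0, hS1 h0 hh0⟩,
        fun h => hHnIm h0 (mem_sdiff.1 h).1 hh0⟩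
    have := st.card
    omega

end

end OT
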