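import Pool.Agent.Helper48.EX.AP2

/-!
# MP_2857a5_co : module AP, part 3: placing all hosts
-/

set_option autoImplicit false

open Finset
open scoped Classical

namespace OT

noncomputable section

variable {n : ℕ} {V : Type}

/-- The place of the first host of a pair. -/
def ap1 (x : Bool) : ℕ := if x = true then 1 else 2

/-- The place of the second host of a pair. -/
def ap2 (x : Bool) : ℕ := if x = true then 6 else 7

/-- The place of a single host. -/
def ap3 (x : Bool) : ℕ := if x = true then 3 else 4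

/-- The flips between the two hosts of a pair. -/
def apF (x y : Bool) (j : ℕ) : Bool := decide (ap1 x < j ∧ j < ap2 y)

theorem ap_pairF4 (x y : Bool) : ∀ j, j < 8 → j ≠ ap1 x → j ≠ ap2 y → j + 1 ≠ ap1 x →
    j + 1 ≠ ap2 y → apF x y j = apF x y (j + 1) := by
  intro j _ h1 _ _ h4
  unfold apF
  rw [decide_eq_decide]
  omega

theorem ap_pairF7 (x y : Bool) : ((range 9).filter fun j => j ∉ ({ap1 x, ap2 y} : Finset ℕ) ∧
    xor (decide (Even j)) (apF x y j) = true).card = 4 := by
  revert x y
  decide

theorem ap_pairF5 (x y : Bool) : xor (decide (Even (ap1 x + 1))) (apF x y (ap1 x + 1)) = !x := by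
  revert x y
  decide

theorem ap_pairF5' (x y : Bool) : xor (decide (Even (ap2 y + 1))) (apF x y (ap2 y + 1)) = !y := by
  revert x y
  decide

theorem ap_pairF6 (x y : Bool) : xor (decide (Even (ap1 x - 1))) (apF x y (ap1 x - 1)) = x := by
  revert x y
  decide

theorem ap_pairF6' (x y : Bool) : xor (decide (Even (ap2 y - 1))) (apF x y (ap2 y - 1)) = y := by
  revert x y
  decide

theorem ap_sgF7 (x : Bool) : 2 * ((range 9).filter fun j => j ∉ ({ap3 x} : Finset ℕ) ∧
    xor (decide (Even j)) false = true).card + 2 * (if x = true then 0 else 1) = 10 := by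
  revert x
  decide

theorem ap_sgF5 (x : Bool) : xor (decide (Even (ap3 x + 1))) false = x := by
  revert x
  decide

theorem ap_sgF6 (x : Bool) : xor (decide (Even (ap3 x - 1))) false = x := by
  revert x
  decide

theorem ap_single {T : PTree n} {pos : Fin n → Bool} {Tl A : Finset (Fin n)}
    {seg : Fin n → ℕ → Fin n} (hseg : Segs T pos Tl A seg) {α β : V → Bool} {c : ℕ}
    {S1 Im : Finset V} {pl : V → Fin n} {Fl U : Finset (Fin n)}
    (st : ApSt T pos Tl A seg α β c S1 Im pl Fl U) (hU : U.card < A.card) (h : V) (hh : h ∉ Im)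
    (hαβ : α h = β h) :
    ∃ (pl' : V → Fin n) (Fl' U' : Finset (Fin n)),
      ApSt T pos Tl A seg α β c S1 (Im ∪ {h}) pl' Fl' U' := by
  obtain ⟨a, haA, haU⟩ := exists_mem_notMem_of_card_lt_card hU
  refine ⟨_, _, _, ap_step hseg st a haA haU {h} (singleton_nonempty h)
    (disjoint_singleton_left.2 hh) (fun _ => ap3 (α h)) (fun _ => false) ?_ ?_ ?_ ?_ ?_ ?_ ?_⟩
  · intro _ _
    constructor <;> (unfold ap3; split_ifs <;> norm_num)
  · intro h1 g1 h2 g2 hne
    rw [mem_singleton] at g1 g2
    exact absurd (g1.trans g2.symm) hne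
  · intro j hj
    exact Bool.noConfusion hj
  · intro _ _ _ _
    rfl
  · intro h1 g1
    rw [mem_singleton] at g1
    rw [g1, ← hαβ]
    exact ap_sgF5 _
  · intro h1 g1
    rw [mem_singleton] at g1
    rw [g1]
    exact ap_sgF6 _
  · rw [image_singleton, sum_singleton]
    have := ap_sgF7 (α h)
    unfold apCost
    rw [← hαβ]
    omega

theorem ap_pair {T : PTree n} {pos : Fin n → Bool} {Tl A : Finset (Fin n)}
    {seg : Fin n → ℕ → Fin n} (hseg : Segs T pos Tl A seg) {α β : V → Bool} {c : ℕ}
    {S1 Im : Finset V} {pl : V → Fin n} {Fl U : Finset (Fin n)}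
    (st : ApSt T pos Tl A seg α β c S1 Im pl Fl U) (hU : U.card < A.card) (h h' : V)
    (hne : h ≠ h') (hh : h ∉ Im) (hh' : h' ∉ Im) (hαβ : α h ≠ β h) (hαβ' : α h' ≠ β h') :
    ∃ (pl' : V → Fin n) (Fl' U' : Finset (Fin n)),
      ApSt T pos Tl A seg α β c S1 (Im ∪ {h, h'}) pl' Fl' U' := by
  obtain ⟨a, haA, haU⟩ := exists_mem_notMem_of_card_lt_card hU
  have hb : β h = !(α h) := by
    revert hαβ
    cases α h <;> cases β h <;> simp
  have hb' : β h' = !(α h') := by
    revert hαβ'
    cases α h' <;> cases β h' <;> simp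
  obtain ⟨g, i1, i2⟩ : ∃ g : V → ℕ, g h = ap1 (α h) ∧ g h' = ap2 (α h') :=
    ⟨fun x => if x = h then ap1 (α h) else ap2 (α h'), if_pos rfl, if_neg (Ne.symm hne)⟩
  have himg : (({h, h'} : Finset V).image g) = {ap1 (α h), ap2 (α h')} := by
    rw [image_insert, image_singleton, i1, i2]
  have b1 : 1 ≤ ap1 (α h) ∧ ap1 (α h) ≤ 2 := by
    unfold ap1
    split_ifs <;> norm_num
  have b2 : 6 ≤ ap2 (α h') ∧ ap2 (α h') ≤ 7 := by
    unfold ap2
    split_ifs <;> norm_num
  refine ⟨_, _, _, ap_step hseg st a haA haU {h, h'} (insert_nonempty _ _) ?_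
    g (apF (α h) (α h')) ?_ ?_ ?_ ?_ ?_ ?_ ?_⟩
  · rw [Finset.disjoint_left]
    intro x hx
    rw [mem_insert, mem_singleton] at hx
    rcases hx with rfl | rfl
    · exact hh
    · exact hh'
  · intro x hx
    rw [mem_insert, mem_singleton] at hx
    rcases hx with rfl | rfl
    · rw [i1]
      omega
    · rw [i2]
      omega
  · intro x hx y hy hxy
    rw [mem_insert, mem_singleton] at hx hy
    rcases hx with rfl | rfl <;> rcases hy with rfl | rfl
    · exact absurd rfl hxy
    · rw [i1, i2]
      omega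
    · rw [i1, i2]
      omega
    · exact absurd rfl hxy
  · intro j hj
    unfold apF at hj
    rw [decide_eq_true_iff] at hj
    omega
  · intro j hj h1 h2
    rw [himg, mem_insert, mem_singleton, not_or] at h1 h2
    exact ap_pairF4 _ _ j hj h1.1 h1.2 h2.1 h2.2
  · intro x hx
    rw [mem_insert, mem_singleton] at hx
    rcases hx with rfl | rfl
    · rw [i1, hb]
      exact ap_pairF5 _ _
    · rw [i2, hb']
      exact ap_pairF5' _ _
  · intro x hx
    rw [mem_insert, mem_singleton] at hx
    rcases hx with rfl | rfl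
    · rw [i1]
      exact ap_pairF6 _ _
    · rw [i2]
      exact ap_pairF6' _ _
  · rw [himg, sum_pair hne, ap_pairF7]
    unfold apCost
    rw [hb, hb']
    cases α h <;> cases α h' <;> rfl

theorem ap_place {T : PTree n} {pos : Fin n → Bool} {Tl A : Finset (Fin n)}
    {seg : Fin n → ℕ → Fin n} (hseg : Segs T pos Tl A seg) {α β : V → Bool} {c : ℕ}
    {S1 : Finset V} {pl0 : V → Fin n}
    (st : ApSt T pos Tl A seg α β c S1 S1 pl0 ∅ ∅) :
    ∀ (k : ℕ) (R : Finset V), R.card = k → Disjoint R S1 → R.card ≤ A.card →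
      Even (R.filter fun h => α h ≠ β h).card →
      ∃ (pl : V → Fin n) (Fl U : Finset (Fin n)),
        ApSt T pos Tl A seg α β c S1 (S1 ∪ R) pl Fl U := by
  intro k
  induction k using Nat.strong_induction_on with
  | _ k IH =>
  intro R hR hd hA hev
  have hcard : ∀ R' : Finset V, R' ⊆ R → ((S1 ∪ R') \ S1).card = R'.card := by
    intro R' hR'
    congr 1
    ext x
    simp only [mem_sdiff, mem_union]
    constructor
    · rintro ⟨h1 | h1, h2⟩
      · exact absurd h1 h2
      · exact h1
    · intro h1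
      exact ⟨Or.inr h1, Finset.disjoint_left.1 hd (hR' h1)⟩
  by_cases h0 : R = ∅
  · subst h0
    rw [union_empty]
    exact ⟨pl0, ∅, ∅, st⟩
  by_cases h1 : ∃ h ∈ R, α h = β h
  · obtain ⟨h, hh, hαβ⟩ := h1
    have hc : (R.erase h).card = R.card - 1 := card_erase_of_mem hh
    have hpos : 0 < R.card := card_pos.2 ⟨h, hh⟩
    have hfil : ((R.erase h).filter fun x => α x ≠ β x) = R.filter fun x => α x ≠ β x := by
      ext x
      simp only [mem_filter, mem_erase]
      constructor
      · rintro ⟨⟨_, h2⟩, h3⟩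
        exact ⟨h2, h3⟩
      · rintro ⟨h2, h3⟩
        refine ⟨⟨?_, h2⟩, h3⟩
        rintro rfl
        exact h3 hαβ
    obtain ⟨pl, Fl, U, hst⟩ := IH (k - 1) (by omega) (R.erase h) (by omega)
      (Finset.disjoint_of_subset_left (erase_subset _ _) hd) (by omega) (by rw [hfil]; exact hev)
    have hUc := hst.card
    rw [hcard _ (erase_subset _ _)] at hUc
    have hnot : h ∉ S1 ∪ R.erase h := by
      rw [mem_union, not_or]
      exact ⟨Finset.disjoint_left.1 hd hh, notMem_erase h R⟩
    obtain ⟨pl', Fl', U', hst'⟩ := ap_single hseg hst (by omega) h hnot hαβ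
    refine ⟨pl', Fl', U', ?_⟩
    have he : S1 ∪ R.erase h ∪ {h} = S1 ∪ R := by
      ext x
      simp only [mem_union, mem_erase, mem_singleton]
      constructor
      · rintro ((h2 | h2) | h2)
        · exact Or.inl h2
        · exact Or.inr h2.2
        · rw [h2]
          exact Or.inr hh
      · rintro (h2 | h2)
        · exact Or.inl (Or.inl h2)
        · by_cases h3 : x = h
          · exact Or.inr h3
          · exact Or.inl (Or.inr ⟨h3, h2⟩)
    rw [← he]
    exact hst'
  · push Not at h1
    have hfil : (R.filter fun x => α x ≠ β x) = R := filter_true_of_mem h1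
    rw [hfil] at hev
    obtain ⟨h, hh⟩ := Finset.nonempty_iff_ne_empty.2 h0
    have hpos : 0 < R.card := card_pos.2 ⟨h, hh⟩
    have hc : (R.erase h).card = R.card - 1 := card_erase_of_mem hh
    have h2 : 2 ≤ R.card := by
      obtain ⟨q, hq⟩ := hev
      omega
    obtain ⟨h', hh'⟩ : (R.erase h).Nonempty := by
      rw [← card_pos]
      omega
    have hne : h ≠ h' := fun e => (mem_erase.1 hh').1 e.symm
    have hR' : h' ∈ R := (mem_erase.1 hh').2
    have hc' : ((R.erase h).erase h').card = R.card - 2 := by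
      rw [card_erase_of_mem hh', hc]
      omega
    have hsub : (R.erase h).erase h' ⊆ R := (erase_subset _ _).trans (erase_subset _ _)
    have hfil' : (((R.erase h).erase h').filter fun x => α x ≠ β x) =
        (R.erase h).erase h' := filter_true_of_mem fun x hx => h1 x (hsub hx)
    obtain ⟨pl, Fl, U, hst⟩ := IH (k - 2) (by omega) ((R.erase h).erase h') (by omega)
      (Finset.disjoint_of_subset_left hsub hd) (by omega) (by
        rw [hfil', hc']
        obtain ⟨q, hq⟩ := hev
        exact ⟨q - 1, by omega⟩)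
    have hUc := hst.card
    rw [hcard _ hsub] at hUc
    have hnot : h ∉ S1 ∪ (R.erase h).erase h' := by
      rw [mem_union, not_or]
      refine ⟨Finset.disjoint_left.1 hd hh, ?_⟩
      intro h3
      exact notMem_erase h R (mem_erase.1 h3).2
    have hnot' : h' ∉ S1 ∪ (R.erase h).erase h' := by
      rw [mem_union, not_or]
      exact ⟨Finset.disjoint_left.1 hd hR', notMem_erase h' _⟩
    obtain ⟨pl', Fl', U', hst'⟩ := ap_pair hseg hst (by omega) h h' hne hnot hnot'
      (h1 h hh) (h1 h' hR')
    refine ⟨pl', Fl', U', ?_⟩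
    have he : S1 ∪ (R.erase h).erase h' ∪ {h, h'} = S1 ∪ R := by
      ext x
      simp only [mem_union, mem_erase, mem_insert, mem_singleton]
      constructor
      · rintro ((h3 | h3) | h3 | h3)
        · exact Or.inl h3
        · exact Or.inr h3.2.2
        · rw [h3]
          exact Or.inr hh
        · rw [h3]
          exact Or.inr hR'
      · rintro (h3 | h3)
        · exact Or.inl (Or.inl h3)
        · by_cases h4 : x = h
          · exact Or.inr (Or.inl h4)
          · by_cases h5 : x = h'
            · exact Or.inr (Or.inr h5)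
            · exact Or.inl (Or.inr ⟨h5, h4, h3⟩)
    rw [← he]
    exact hst'

/-- The beginning: only the tails are placed. -/
theorem ap_base {T : PTree n} {pos : Fin n → Bool} {Tl A : Finset (Fin n)}
    {seg : Fin n → ℕ → Fin n} (α β : V → Bool) (e0 : V → Fin n) (S1 : Finset V)
    (hc : S1.card = Tl.card) (sep : ∀ a ∈ Tl, ∀ b ∈ Tl, a ≠ b → b ∉ T.ball 3 a) :
    ∃ pl0 : V → Fin n, ApSt T pos Tl A seg α β
      (2 * (univ.filter fun y => y ∉ Tl ∧ pos y = true).card) S1 S1 pl0 ∅ ∅ := by
  set e := Finset.equivOfCardEq hc with he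
  set pl : V → Fin n := fun h => if hh : h ∈ S1 then (e ⟨h, hh⟩ : Fin n) else e0 h with hpl
  have hpl1 : ∀ h (hh : h ∈ S1), pl h = e ⟨h, hh⟩ := fun h hh => by
    simp only [hpl, dif_pos hh]
  have htl : S1.image pl = Tl := by
    ext y
    rw [mem_image]
    constructor
    · rintro ⟨h, hh, rfl⟩
      rw [hpl1 h hh]
      exact (e ⟨h, hh⟩).2
    · intro hy
      refine ⟨(e.symm ⟨y, hy⟩ : S1), (e.symm ⟨y, hy⟩).2, ?_⟩
      rw [hpl1 _ (e.symm ⟨y, hy⟩).2]
      simp
  refine ⟨pl, ?_⟩
  refine
    { sub := subset_rfl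
      UA := empty_subset _
      tl := htl
      place := fun h h1 h2 => absurd h1 h2
      flip := fun y hy => absurd hy (notMem_empty y)
      sep := ?_
      arc := fun x y _ _ _ hx => absurd hx (notMem_empty x)
      out := fun h h1 h2 => absurd h1 h2
      inn := fun h h1 h2 => absurd h1 h2
      cnt := ?_
      card := by simp }
  · intro h hh h' hh' hne
    refine sep _ ?_ _ ?_ ?_
    · rw [← htl]
      exact mem_image_of_mem _ hh
    · rw [← htl]
      exact mem_image_of_mem _ hh'
    · intro heq
      rw [hpl1 h hh, hpl1 h' hh'] at heq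
      have := e.injective (Subtype.ext heq)
      exact hne (congrArg Subtype.val this)
  · rw [htl, Finset.sdiff_self, sum_empty, add_zero]
    congr 2
    ext y
    simp

end

end OT
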